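import Mathlib

/-!
# Closed ideals of `ℓ¹(G)` of finite codimension on all abelian subgroups: definitions
-/

set_option autoImplicit false

namespace Pool.Agent.FGA

open Filter Topology

/-- `f` is bounded, that is an element of `ℓ^∞(G)`. -/
def Bounded {G : Type} (f : G → ℂ) : Prop := ∃ C : ℝ, ∀ x, ‖f x‖ ≤ C

/-- `G` is amenable: there is a mean `m` on `ℓ^∞(G)`, that is a linear functional with
`m 1 = 1` and `|m f| ≤ C` if `|f| ≤ C`, which is invariant under the left translations. -/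
def Amenable (G : Type) [Group G] : Prop :=
  ∃ m : (G → ℂ) → ℂ,
    (∀ f h, Bounded f → Bounded h → m (fun x => f x + h x) = m f + m h) ∧
    (∀ (c : ℂ) (f : G → ℂ), Bounded f → m (fun x => c * f x) = c * m f) ∧
    m (fun _ => 1) = 1 ∧
    (∀ (f : G → ℂ) (C : ℝ), (∀ x, ‖f x‖ ≤ C) → ‖m f‖ ≤ C) ∧
    ∀ (g : G) (f : G → ℂ), Bounded f → m (fun x => f (g⁻¹ * x)) = m f

/-- `ℓ¹(G)`: the summable complex functions on `G`. -/
def ell (G : Type) : Set (G → ℂ) := {f | Summable fun x => ‖f x‖}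

/-- `ℓ¹(H)` inside `ℓ¹(G)`: the summable functions on `G` which vanish outside `H`. -/
def ellOn {G : Type} [Group G] (H : Subgroup G) : Set (G → ℂ) :=
  {f | f ∈ ell G ∧ ∀ x, x ∉ H → f x = 0}

/-- The convolution product. -/
noncomputable def conv {G : Type} [Group G] (f g : G → ℂ) : G → ℂ :=
  fun x => ∑' y, f y * g (y⁻¹ * x)

/-- `I` is a norm-closed two-sided ideal of `ℓ¹(G)`: a linear subspace of `ℓ¹(G)`, stable under
convolution with all elements of `ℓ¹(G)` on both sides, which contains the elements of `ℓ¹(G)`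
which it approximates in the norm of `ℓ¹(G)`. -/
def IsClosedIdeal {G : Type} [Group G] (I : Set (G → ℂ)) : Prop :=
  I ⊆ ell G ∧ 0 ∈ I ∧ (∀ f ∈ I, ∀ g ∈ I, ∀ c : ℂ, (fun x => c * f x + g x) ∈ I) ∧
    (∀ f ∈ ell G, ∀ g ∈ I, conv f g ∈ I ∧ conv g f ∈ I) ∧
    ∀ f ∈ ell G, (∀ ε : ℝ, 0 < ε → ∃ g ∈ I, ∑' x, ‖f x - g x‖ < ε) → f ∈ I

/-- `dim (W / (I ∩ W)) ≤ n`, for linear spaces `W`, `I` of functions: modulo `I` every element of
`W` is a linear combination of `n` fixed elements of `W`. -/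
def CodimLE {G : Type} (n : ℕ) (W I : Set (G → ℂ)) : Prop :=
  ∃ u : Fin n → G → ℂ, (∀ i, u i ∈ W) ∧
    ∀ f ∈ W, ∃ a : Fin n → ℂ, (fun x => f x - ∑ i, a i * u i x) ∈ I

end Pool.Agent.FGA
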