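import Mathlib

/-!
# A finitely generated infinite torsion group of subexponential growth

The group of Grigorchuk, acting on the finite binary words, with integer weights of the four
letters for which the two sections of an element are shorter by a factor `5 / 6`.
-/

set_option autoImplicit false

namespace Pool.Agent.FGA

/-- The four letters. -/
inductive Lt where
  | a | b | c | d
  deriving DecidableEq

instance : Fintype Lt := ⟨{.a, .b, .c, .d}, fun x => by cases x <;> decide⟩

open Lt

/-- The action of the letters on the binary words. -/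
def act : List Bool → Lt → List Bool
  | [], _ => []
  | (x :: l), .a => (!x) :: l
  | (false :: l), .b => false :: act l .a
  | (true :: l), .b => true :: act l .c
  | (false :: l), .c => false :: act l .a
  | (true :: l), .c => true :: act l .d
  | (false :: l), .d => false :: l
  | (true :: l), .d => true :: act l .b

theorem act_act (l : List Bool) : ∀ x, act (act l x) x = l := by
  induction l with
  | nil => intro x; cases x <;> rfl
  | cons i l ih =>
    intro x
    cases x <;> cases i <;> simp [act, ih]

/-- The permutation of a letter. -/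
def gen (x : Lt) : Equiv.Perm (List Bool) :=
  ⟨fun l => act l x, fun l => act l x, fun l => act_act l x, fun l => act_act l x⟩

theorem gen_apply (x : Lt) (l : List Bool) : gen x l = act l x := rfl

theorem gen_mul_self (x : Lt) : gen x * gen x = 1 := by
  ext1 l
  exact act_act l x

theorem rel (l : List Bool) : act (act l .c) .b = act l .d ∧ act (act l .d) .c = act l .b ∧
    act (act l .b) .d = act l .c ∧ act (act l .b) .c = act l .d ∧ act (act l .c) .d = act l .b ∧
    act (act l .d) .b = act l .c := by
  induction l with
  | nil => exact ⟨rfl, rfl, rfl, rfl, rfl, rfl⟩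
  | cons i l ih =>
    obtain ⟨h1, h2, h3, h4, h5, h6⟩ := ih
    cases i <;> simp [act, act_act, h1, h2, h3, h4, h5, h6]

/-- The element of a word. -/
def elt (w : List Lt) : Equiv.Perm (List Bool) := (w.map gen).prod

theorem elt_nil : elt [] = 1 := rfl

theorem elt_cons (x : Lt) (w : List Lt) : elt (x :: w) = gen x * elt w := by
  simp [elt]

theorem elt_append (v w : List Lt) : elt (v ++ w) = elt v * elt w := by
  simp [elt]

theorem elt_single (x : Lt) : elt [x] = gen x := by simp [elt]

theorem gen_inv (x : Lt) : (gen x)⁻¹ = gen x := by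
  rw [inv_eq_iff_mul_eq_one]
  exact gen_mul_self x

theorem elt_reverse (w : List Lt) : elt w.reverse = (elt w)⁻¹ := by
  induction w with
  | nil => simp [elt_nil]
  | cons x w ih =>
    rw [List.reverse_cons, elt_append, ih, elt_single, elt_cons x w, mul_inv_rev, gen_inv]

/-- sections of the letters -/
def secl : Lt → Bool → List Lt
  | .a, _ => []
  | .b, false => [.a]
  | .b, true => [.c]
  | .c, false => [.a]
  | .c, true => [.d]
  | .d, false => []
  | .d, true => [.b]

/-- action of a letter on the first bit -/
def fl : Lt → Bool → Bool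
  | .a, x => !x
  | _, x => x

theorem gen_cons (x : Lt) (i : Bool) (l : List Bool) :
    gen x (i :: l) = fl x i :: elt (secl x i) l := by
  cases x <;> cases i <;> simp [gen_apply, act, fl, secl, elt_nil, elt_single]

/-- action of a word on the first bit -/
def tr : List Lt → Bool → Bool
  | [], i => i
  | (x :: w), i => fl x (tr w i)

/-- sections of a word -/
def sec : List Lt → Bool → List Lt
  | [], _ => []
  | (x :: w), i => secl x (tr w i) ++ sec w i

theorem elt_apply_cons (w : List Lt) (i : Bool) (l : List Bool) :
    elt w (i :: l) = tr w i :: elt (sec w i) l := by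
  induction w with
  | nil => simp [elt_nil, tr, sec]
  | cons x w ih =>
    rw [elt_cons, Equiv.Perm.mul_apply, ih, gen_cons, sec, elt_append, tr, Equiv.Perm.mul_apply]

theorem elt_apply_nil (w : List Lt) : elt w [] = [] := by
  induction w with
  | nil => rfl
  | cons x w ih =>
    rw [elt_cons, Equiv.Perm.mul_apply, ih]
    rfl

theorem fl_not (x : Lt) (i : Bool) : fl x (!i) = !(fl x i) := by
  cases x <;> cases i <;> rfl

theorem tr_not (w : List Lt) (i : Bool) : tr w (!i) = !(tr w i) := by
  induction w with
  | nil => rfl
  | cons x w ih => rw [tr, ih, fl_not, tr]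

theorem tr_append (v w : List Lt) (i : Bool) : tr (v ++ w) i = tr v (tr w i) := by
  induction v with
  | nil => rfl
  | cons x v ih => rw [List.cons_append, tr, ih, tr]

theorem sec_append (v w : List Lt) (i : Bool) :
    sec (v ++ w) i = sec v (tr w i) ++ sec w i := by
  induction v with
  | nil => rfl
  | cons x v ih => rw [List.cons_append, sec, ih, sec, tr_append, List.append_assoc]

/-! ### Weights -/

/-- the weights -/
def wt : Lt → ℕ
  | .a => 3
  | .b => 3
  | .c => 2
  | .d => 1

/-- the weight of a word -/
def L (w : List Lt) : ℕ := (w.map wt).sum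

theorem L_nil : L [] = 0 := rfl

theorem L_cons (x : Lt) (w : List Lt) : L (x :: w) = wt x + L w := by simp [L]

theorem L_append (v w : List Lt) : L (v ++ w) = L v + L w := by simp [L]

theorem wt_pos (x : Lt) : 1 ≤ wt x := by cases x <;> decide

theorem length_le_L (w : List Lt) : w.length ≤ L w := by
  induction w with
  | nil => simp
  | cons x w ih =>
    rw [L_cons, List.length_cons]
    have := wt_pos x
    omega

/-- is the letter `a`? -/
def isA : Lt → Bool
  | .a => true
  | _ => false

/-- five sixths of this bounds the weight of the two sections -/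
def S : List Lt → ℕ
  | [] => 0
  | (x :: w) => (if isA x then 0 else 3 + wt x) + S w

theorem sec_weight (w : List Lt) : 6 * (L (sec w false) + L (sec w true)) ≤ 5 * S w := by
  induction w with
  | nil => simp [sec, L_nil]
  | cons x w ih =>
    rw [sec, sec, L_append, L_append, S]
    have h : 6 * (L (secl x (tr w false)) + L (secl x (tr w true))) ≤
        5 * (if isA x then 0 else 3 + wt x) := by
      have h1 : tr w true = !(tr w false) := tr_not w false
      rw [h1]
      generalize tr w false = j
      cases x <;> cases j <;> decide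
    omega

/-- alternating words -/
def Alt : List Lt → Prop
  | [] => True
  | [_] => True
  | (x :: y :: w) => isA x ≠ isA y ∧ Alt (y :: w)

theorem Alt.tail {x : Lt} {w : List Lt} (h : Alt (x :: w)) : Alt w := by
  cases w with
  | nil => trivial
  | cons y w => exact h.2

theorem S_le (w : List Lt) (h : Alt w) :
    S w ≤ L w + 3 ∧ ∀ x v, w = x :: v → isA x = true → S w ≤ L w := by
  induction w with
  | nil => exact ⟨by simp [S, L_nil], fun x v h => by simp at h⟩
  | cons x w ih =>
    have ihw := ih h.tail
    rw [S, L_cons]
    cases w with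
    | nil =>
      refine ⟨?_, ?_⟩
      · simp only [S, L_nil]
        split_ifs <;> omega
      · intro y v hy hA
        obtain ⟨rfl, -⟩ := List.cons.inj hy
        rw [if_pos hA]
        simp [S]
    | cons y u =>
      have hxy : isA x ≠ isA y := h.1
      by_cases hx : isA x = true
      · rw [if_pos hx]
        have hw : wt x = 3 := by
          cases x <;> simp_all [isA, wt]
        have := ihw.1
        refine ⟨by omega, fun _ _ _ _ => by omega⟩
      · rw [if_neg hx]
        have hy : isA y = true := by
          cases h1 : isA x <;> cases h2 : isA y <;> simp_all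
        have := ihw.2 y u rfl hy
        refine ⟨by omega, fun z v hz hA => ?_⟩
        obtain ⟨rfl, -⟩ := List.cons.inj hz
        exact absurd hA hx

theorem merge (x y : Lt) (hx : isA x = false) (hy : isA y = false) (hxy : x ≠ y) :
    ∃ z, isA z = false ∧ gen x * gen y = gen z ∧ wt z ≤ wt x + wt y := by
  cases x <;> cases y <;> simp_all [isA]
  · exact ⟨.d, rfl, Equiv.ext fun l => (rel l).1, by decide⟩
  · exact ⟨.c, rfl, Equiv.ext fun l => (rel l).2.2.2.2.2, by decide⟩
  · exact ⟨.d, rfl, Equiv.ext fun l => (rel l).2.2.2.1, by decide⟩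
  · exact ⟨.b, rfl, Equiv.ext fun l => (rel l).2.1, by decide⟩
  · exact ⟨.c, rfl, Equiv.ext fun l => (rel l).2.2.1, by decide⟩
  · exact ⟨.b, rfl, Equiv.ext fun l => (rel l).2.2.2.2.1, by decide⟩

theorem eq_a {x : Lt} (h : isA x = true) : x = .a := by
  cases x <;> simp_all [isA]

theorem cons_red (x : Lt) (w : List Lt) (h : Alt w) :
    ∃ v, Alt v ∧ elt v = gen x * elt w ∧ L v ≤ wt x + L w := by
  cases w with
  | nil => exact ⟨[x], trivial, by simp [elt_cons], by simp [L_cons]⟩
  | cons y u =>
    by_cases hxy : isA x = isA y
    · by_cases hxy2 : x = y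
      · subst hxy2
        refine ⟨u, h.tail, ?_, ?_⟩
        · rw [elt_cons, ← mul_assoc, gen_mul_self, one_mul]
        · rw [L_cons]
          omega
      · have hx : isA x = false := by
          by_contra hx
          rw [Bool.not_eq_false] at hx
          exact hxy2 ((eq_a hx).trans (eq_a (hxy ▸ hx)).symm)
        obtain ⟨z, hz, he, hw⟩ := merge x y hx (hxy ▸ hx) hxy2
        refine ⟨z :: u, ?_, ?_, ?_⟩
        · cases u with
          | nil => trivial
          | cons t u =>
            refine ⟨?_, h.2⟩
            have h1 : isA y ≠ isA t := h.1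
            rw [hz]
            rw [← hxy, hx] at h1
            exact h1
        · rw [elt_cons, elt_cons, ← he, mul_assoc]
        · rw [L_cons, L_cons]
          omega
    · exact ⟨x :: y :: u, ⟨hxy, h⟩, by rw [elt_cons], by rw [L_cons x]⟩

theorem reduce (w : List Lt) : ∃ v, Alt v ∧ elt v = elt w ∧ L v ≤ L w := by
  induction w with
  | nil => exact ⟨[], trivial, rfl, le_refl _⟩
  | cons x w ih =>
    obtain ⟨v, h1, h2, h3⟩ := ih
    obtain ⟨u, h4, h5, h6⟩ := cons_red x v h1
    refine ⟨u, h4, ?_, ?_⟩
    · rw [h5, h2, elt_cons]
    · rw [L_cons]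
      omega

theorem snoc_red (x : Lt) (u : List Lt) : ∀ y, Alt (y :: u) →
    ∃ v, Alt v ∧ elt v = elt (y :: u) * gen x ∧ L v ≤ L (y :: u) + wt x ∧
      ∀ z t, v = z :: t → isA z = isA y := by
  induction u with
  | nil =>
    intro y _
    by_cases hxy : isA y = isA x
    · by_cases hxy2 : y = x
      · subst hxy2
        refine ⟨[], trivial, ?_, ?_, ?_⟩
        · rw [elt_single, gen_mul_self, elt_nil]
        · rw [L_nil]
          omega
        · intro z t h
          simp at h
      · have hx : isA y = false := by
          by_contra hx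
          rw [Bool.not_eq_false] at hx
          exact hxy2 ((eq_a hx).trans (eq_a (hxy ▸ hx)).symm)
        obtain ⟨z, hz, he, hw⟩ := merge y x hx (hxy ▸ hx) hxy2
        refine ⟨[z], trivial, ?_, ?_, ?_⟩
        · rw [elt_single, elt_single, he]
        · rw [L_cons, L_cons, L_nil]
          omega
        · intro z' t h
          obtain ⟨rfl, -⟩ := List.cons.inj h
          rw [hz, hx]
    · refine ⟨[y, x], ⟨hxy, trivial⟩, ?_, ?_, ?_⟩
      · rw [elt_cons, elt_single, elt_single]
      · rw [L_cons, L_cons, L_cons, L_nil]
        omega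
      · intro z t h
        obtain ⟨rfl, -⟩ := List.cons.inj h
        rfl
  | cons t u ih =>
    intro y h
    obtain ⟨v, h1, h2, h3, h4⟩ := ih t h.2
    refine ⟨y :: v, ?_, ?_, ?_, ?_⟩
    · cases v with
      | nil => trivial
      | cons z v =>
        refine ⟨?_, h1⟩
        rw [h4 z v rfl]
        exact h.1
    · rw [elt_cons, h2, elt_cons y, mul_assoc]
    · rw [L_cons, L_cons y]
      omega
    · intro z s hz
      obtain ⟨rfl, -⟩ := List.cons.inj hz
      rfl

/-! ### Torsion -/

theorem pow_apply_cons (w : List Lt) (h : ∀ i, tr w i = i) (k : ℕ) (i : Bool) (l : List Bool) :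
    (elt w ^ k) (i :: l) = i :: (elt (sec w i) ^ k) l := by
  induction k with
  | zero => simp
  | succ k ih =>
    rw [pow_succ', Equiv.Perm.mul_apply, ih, elt_apply_cons, h, pow_succ', Equiv.Perm.mul_apply]

theorem pow_apply_nil (w : List Lt) (k : ℕ) : (elt w ^ k) [] = [] := by
  induction k with
  | zero => simp
  | succ k ih => rw [pow_succ', Equiv.Perm.mul_apply, ih, elt_apply_nil]

theorem tors_of_sec (w : List Lt) (h : ∀ i, tr w i = i)
    (ht : ∀ i, ∃ k, 0 < k ∧ elt (sec w i) ^ k = 1) : ∃ k, 0 < k ∧ elt w ^ k = 1 := by
  obtain ⟨m, hm, h1⟩ := ht false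
  obtain ⟨n, hn, h2⟩ := ht true
  refine ⟨m * n, Nat.mul_pos hm hn, ?_⟩
  ext1 l
  cases l with
  | nil => rw [pow_apply_nil]; rfl
  | cons i l =>
    rw [pow_apply_cons w h]
    cases i with
    | false => rw [pow_mul, h1, one_pow]; rfl
    | true => rw [mul_comm, pow_mul, h2, one_pow]; rfl

theorem tors_core (n : ℕ) (ih : ∀ m < n, ∀ w, L w = m → ∃ k, 0 < k ∧ elt w ^ k = 1)
    (w : List Lt) (hL : L w ≤ n) (h0 : 0 < L w) (hS : S w ≤ L w) :
    ∃ k, 0 < k ∧ elt w ^ k = 1 := by
  have hsec := sec_weight w
  by_cases h : tr w false = false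
  · have h' : ∀ i, tr w i = i := by
      intro i
      cases i
      · exact h
      · have := tr_not w false
        rw [h] at this
        exact this
    apply tors_of_sec w h'
    intro i
    refine ih (L (sec w i)) ?_ _ rfl
    cases i <;> omega
  · have h' : ∀ i, tr w i = !i := by
      intro i
      have h1 : tr w false = true := by
        cases h2 : tr w false <;> simp_all
      cases i
      · exact h1
      · have := tr_not w false
        rw [h1] at this
        exact this
    have h2 : ∃ k, 0 < k ∧ elt (w ++ w) ^ k = 1 := by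
      apply tors_of_sec
      · intro i
        rw [tr_append, h', h', Bool.not_not]
      · intro i
        refine ih (L (sec (w ++ w) i)) ?_ _ rfl
        rw [sec_append, L_append, h']
        cases i
        · simp only [Bool.not_false]; omega
        · simp only [Bool.not_true]; omega
    obtain ⟨k, hk, h3⟩ := h2
    refine ⟨2 * k, by omega, ?_⟩
    rw [pow_mul, pow_two, ← elt_append]
    exact h3

theorem torsion_aux (n : ℕ) : ∀ w, L w = n → ∃ k, 0 < k ∧ elt w ^ k = 1 := by
  induction n using Nat.strong_induction_on with
  | _ n ih =>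
    intro w hw
    obtain ⟨v, hv, he, hL⟩ := reduce w
    rw [← he]
    rw [hw] at hL
    cases v with
    | nil => exact ⟨1, one_pos, by rw [elt_nil, one_pow]⟩
    | cons x u =>
      by_cases hx : isA x = true
      · apply tors_core n ih _ hL
        · rw [L_cons]
          have := wt_pos x
          omega
        · exact (S_le _ hv).2 x u rfl hx
      · cases u with
        | nil =>
          refine ⟨2, two_pos, ?_⟩
          rw [elt_single, pow_two, gen_mul_self]
        | cons y u =>
          have hy : isA y = true := by
            have h1 : isA x ≠ isA y := hv.1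
            cases h2 : isA x <;> cases h3 : isA y <;> simp_all
          obtain ⟨t, ht1, ht2, ht3, ht4⟩ := snoc_red x u y hv.2
          have hconj : elt (x :: y :: u) = gen x * elt t * (gen x)⁻¹ := by
            rw [ht2, elt_cons, gen_inv, mul_assoc, mul_assoc, gen_mul_self, mul_one]
          have ht : ∃ k, 0 < k ∧ elt t ^ k = 1 := by
            cases t with
            | nil => exact ⟨1, one_pos, by rw [elt_nil, one_pow]⟩
            | cons z t =>
              apply tors_core n ih
              · rw [L_cons] at hL
                omega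
              · rw [L_cons]
                have := wt_pos z
                omega
              · exact (S_le _ ht1).2 z t rfl ((ht4 z t rfl).trans hy)
          obtain ⟨k, hk, h3⟩ := ht
          refine ⟨k, hk, ?_⟩
          rw [hconj, conj_pow, h3, mul_one, mul_inv_cancel]

/-! ### The group -/

/-- The group. -/
def Gam : Subgroup (Equiv.Perm (List Bool)) where
  carrier := Set.range elt
  mul_mem' := by
    rintro _ _ ⟨v, rfl⟩ ⟨w, rfl⟩
    exact ⟨v ++ w, elt_append v w⟩
  one_mem' := ⟨[], rfl⟩
  inv_mem' := by
    rintro _ ⟨v, rfl⟩
    exact ⟨v.reverse, elt_reverse v⟩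

/-- The element of a word in the group. -/
def el (w : List Lt) : Gam := ⟨elt w, ⟨w, rfl⟩⟩

theorem el_nil : el [] = 1 := rfl

theorem el_cons (x : Lt) (w : List Lt) : el (x :: w) = el [x] * el w := by
  apply Subtype.ext
  show elt (x :: w) = elt [x] * elt w
  rw [elt_cons, elt_single]

theorem el_append (v w : List Lt) : el (v ++ w) = el v * el w :=
  Subtype.ext (elt_append v w)

theorem el_surj (g : Gam) : ∃ w, el w = g := by
  obtain ⟨w, hw⟩ := g.2
  exact ⟨w, Subtype.ext hw⟩

theorem el_inj {v w : List Lt} : el v = el w ↔ elt v = elt w :=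
  ⟨fun h => congrArg Subtype.val h, fun h => Subtype.ext h⟩

theorem el_mul_self (x : Lt) : el [x] * el [x] = 1 := by
  rw [← el_cons]
  apply Subtype.ext
  show elt [x, x] = 1
  rw [elt_cons, elt_single, gen_mul_self]

theorem torsion (g : Gam) : ∃ k, 0 < k ∧ g ^ k = 1 := by
  obtain ⟨w, rfl⟩ := el_surj g
  obtain ⟨k, hk, h⟩ := torsion_aux _ w rfl
  exact ⟨k, hk, Subtype.ext h⟩

/-- a word of an element -/
noncomputable def wd (g : Gam) : List Lt := (el_surj g).choose

theorem el_wd (g : Gam) : el (wd g) = g := (el_surj g).choose_spec

/-- the sections -/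
noncomputable def sq (g : Gam) (i : Bool) : Gam := el (sec (wd g) i)

/-- action on the first bit -/
noncomputable def fb (g : Gam) (i : Bool) : Bool := tr (wd g) i

theorem apply_cons (g : Gam) (i : Bool) (l : List Bool) :
    g.1 (i :: l) = fb g i :: (sq g i).1 l := by
  have h : g.1 = elt (wd g) := (congrArg Subtype.val (el_wd g)).symm
  rw [h, elt_apply_cons]
  rfl

theorem sq_el (w : List Lt) (i : Bool) : sq (el w) i = el (sec w i) := by
  apply Subtype.ext
  ext1 l
  have h1 := apply_cons (el w) i l
  have h2 : (el w).1 (i :: l) = tr w i :: elt (sec w i) l := elt_apply_cons w i l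
  rw [h2] at h1
  exact ((List.cons.inj h1).2).symm

theorem fb_el (w : List Lt) (i : Bool) : fb (el w) i = tr w i := by
  have h1 := apply_cons (el w) i []
  have h2 : (el w).1 [i] = tr w i :: elt (sec w i) [] := elt_apply_cons w i []
  rw [h2] at h1
  exact ((List.cons.inj h1).1).symm

theorem fb_not (g : Gam) (i : Bool) : fb g (!i) = !(fb g i) := tr_not _ _

theorem code_inj : Function.Injective
    (fun g : Gam => ((fb g false, sq g false, sq g true) : Bool × Gam × Gam)) := by
  intro g h hgh
  have h1 : fb g false = fb h false := congrArg Prod.fst hgh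
  have h2 : sq g false = sq h false := congrArg (fun z => z.2.1) hgh
  have h3 : sq g true = sq h true := congrArg (fun z => z.2.2) hgh
  have h4 : fb g true = fb h true := by
    have e1 := fb_not g false
    have e2 := fb_not h false
    rw [Bool.not_false] at e1 e2
    rw [e1, e2, h1]
  apply Subtype.ext
  ext1 l
  cases l with
  | nil =>
    obtain ⟨v, rfl⟩ := el_surj g
    obtain ⟨w, rfl⟩ := el_surj h
    exact (elt_apply_nil v).trans (elt_apply_nil w).symm
  | cons i l =>
    rw [apply_cons, apply_cons]
    cases i
    · rw [h1, h2]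
    · rw [h4, h3]

/-! ### Infinite -/

/-- lifts of the letters -/
def up : Lt → List Lt
  | .a => [.b]
  | .b => [.a, .d, .a]
  | .c => [.a, .b, .a]
  | .d => [.a, .c, .a]

/-- lifts of the words -/
def lift : List Lt → List Lt
  | [] => []
  | (x :: w) => up x ++ lift w

theorem lift_apply (w : List Lt) (l : List Bool) :
    elt (lift w) (false :: l) = false :: elt w l := by
  induction w with
  | nil => rfl
  | cons x w ih =>
    rw [lift, elt_append, Equiv.Perm.mul_apply, ih, elt_cons, Equiv.Perm.mul_apply]
    generalize elt w l = m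
    cases x <;> simp [up, elt_cons, elt_nil, gen_apply, act]

theorem infinite_Gam : Infinite Gam := by
  by_contra hfin
  rw [not_infinite_iff_finite] at hfin
  have h1 : Function.Surjective (fun g : {g : Gam // fb g false = false} => sq g.1 false) := by
    intro g
    obtain ⟨w, rfl⟩ := el_surj g
    have h2 : tr (lift w) false = false := by
      have h3 := lift_apply w []
      rw [elt_apply_cons] at h3
      exact (List.cons.inj h3).1
    refine ⟨⟨el (lift w), by rw [fb_el]; exact h2⟩, ?_⟩
    show sq (el (lift w)) false = el w
    rw [sq_el]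
    apply Subtype.ext
    ext1 l
    have h3 := lift_apply w l
    rw [elt_apply_cons] at h3
    exact (List.cons.inj h3).2
  have h2 := Nat.card_le_card_of_surjective _ h1
  have h3 : Nat.card {g : Gam // fb g false = false} < Nat.card Gam := by
    apply Finite.card_subtype_lt (x := el [.a])
    rw [fb_el]
    simp [tr, fl]
  omega

/-! ### The length -/

/-- The length. -/
noncomputable def len (g : Gam) : ℕ := sInf {n | ∃ w, el w = g ∧ L w = n}

theorem len_spec (g : Gam) : ∃ w, el w = g ∧ L w = len g := by
  have h : {n | ∃ w, el w = g ∧ L w = n}.Nonempty := ⟨L (wd g), wd g, el_wd g, rfl⟩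
  exact Nat.sInf_mem h

theorem len_le (w : List Lt) : len (el w) ≤ L w := Nat.sInf_le ⟨w, rfl, rfl⟩

theorem len_mul (v : List Lt) (g : Gam) : len (el v * g) ≤ L v + len g := by
  obtain ⟨w, rfl, hw⟩ := len_spec g
  rw [← el_append, ← hw, ← L_append]
  exact len_le _

theorem len_sq (g : Gam) : 6 * (len (sq g false) + len (sq g true)) ≤ 5 * (len g + 3) := by
  obtain ⟨w, rfl, hw⟩ := len_spec g
  obtain ⟨v, hv, he, hL⟩ := reduce w
  have h1 : el v = el w := el_inj.2 he
  rw [← h1, sq_el, sq_el]
  have h2 := sec_weight v
  have h3 := (S_le v hv).1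
  have h4 := len_le (sec v false)
  have h5 := len_le (sec v true)
  rw [h1]
  omega

end Pool.Agent.FGA
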