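import Pool.Agent.FGA.Defs

/-!
# Invariant means: limits of functionals, countable abelian groups, extensions
-/

set_option autoImplicit false

namespace Pool.Agent.FGA

open Filter Topology

theorem Bounded.add {G : Type} {f h : G → ℂ} (hf : Bounded f) (hh : Bounded h) :
    Bounded fun x => f x + h x := by
  obtain ⟨C, hC⟩ := hf
  obtain ⟨D, hD⟩ := hh
  exact ⟨C + D, fun x => (norm_add_le _ _).trans (add_le_add (hC x) (hD x))⟩

theorem Bounded.smul {G : Type} {f : G → ℂ} (c : ℂ) (hf : Bounded f) :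
    Bounded fun x => c * f x := by
  obtain ⟨C, hC⟩ := hf
  refine ⟨‖c‖ * C, fun x => ?_⟩
  rw [norm_mul]
  exact mul_le_mul_of_nonneg_left (hC x) (norm_nonneg c)

theorem bounded_one {G : Type} : Bounded fun _ : G => (1 : ℂ) := ⟨1, fun x => by rw [norm_one]⟩

theorem Bounded.comp {G K : Type} {f : G → ℂ} (hf : Bounded f) (e : K → G) :
    Bounded fun x => f (e x) := by
  obtain ⟨C, hC⟩ := hf
  exact ⟨C, fun x => hC _⟩

section lim

variable {G : Type} [Group G] (Φ : ℕ → (G → ℂ) → ℂ)

omit [Group G] in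
theorem exists_lim (hb : ∀ k f C, (∀ x, ‖f x‖ ≤ C) → ‖Φ k f‖ ≤ C) (f : G → ℂ)
    (hf : Bounded f) :
    ∃ l : ℂ, Tendsto (fun k => Φ k f) (hyperfilter ℕ : Filter ℕ) (𝓝 l) := by
  obtain ⟨C, hC⟩ := hf
  have hc : IsCompact (Metric.closedBall (0 : ℂ) C) := isCompact_closedBall _ _
  obtain ⟨l, -, h⟩ := hc.ultrafilter_le_nhds ((hyperfilter ℕ).map (fun k => Φ k f)) (by
    rw [Filter.le_principal_iff]
    show ∀ᶠ n in (hyperfilter ℕ : Filter ℕ), Φ n f ∈ Metric.closedBall (0 : ℂ) C
    exact Eventually.of_forall fun n => mem_closedBall_zero_iff.2 (hb n f C hC))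
  exact ⟨l, h⟩

/-- Limits of functionals. -/
theorem amenable_of_lim
    (hadd : ∀ k f h, Bounded f → Bounded h → Φ k (fun x => f x + h x) = Φ k f + Φ k h)
    (hsmul : ∀ k (c : ℂ) f, Bounded f → Φ k (fun x => c * f x) = c * Φ k f)
    (hone : ∀ k, Φ k (fun _ => 1) = 1)
    (hb : ∀ k f C, (∀ x, ‖f x‖ ≤ C) → ‖Φ k f‖ ≤ C)
    (hinv : ∀ g f, Bounded f →
      Tendsto (fun k => Φ k (fun x => f (g⁻¹ * x)) - Φ k f) atTop (𝓝 0)) : Amenable G := by
  classical
  let m : (G → ℂ) → ℂ := fun f => if hf : Bounded f then (exists_lim Φ hb f hf).choose else 0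
  have hm : ∀ f, Bounded f → Tendsto (fun k => Φ k f) (hyperfilter ℕ : Filter ℕ) (𝓝 (m f)) := by
    intro f hf
    have h : m f = (exists_lim Φ hb f hf).choose := dif_pos hf
    rw [h]
    exact (exists_lim Φ hb f hf).choose_spec
  have hle : (hyperfilter ℕ : Filter ℕ) ≤ atTop := by
    rw [← Nat.cofinite_eq_atTop]
    exact hyperfilter_le_cofinite
  refine ⟨m, ?_, ?_, ?_, ?_, ?_⟩
  · intro f h hf hh
    refine tendsto_nhds_unique (hm _ (hf.add hh)) ?_
    have e : (fun k => Φ k (fun x => f x + h x)) = fun k => Φ k f + Φ k h := by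
      funext k
      exact hadd k f h hf hh
    rw [e]
    exact (hm f hf).add (hm h hh)
  · intro c f hf
    refine tendsto_nhds_unique (hm _ (hf.smul c)) ?_
    have e : (fun k => Φ k (fun x => c * f x)) = fun k => c * Φ k f := by
      funext k
      exact hsmul k c f hf
    rw [e]
    exact (hm f hf).const_mul c
  · refine tendsto_nhds_unique (hm _ bounded_one) ?_
    have e : (fun k => Φ k (fun _ => 1)) = fun _ => 1 := by
      funext k
      exact hone k
    rw [e]
    exact tendsto_const_nhds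
  · intro f C hC
    have h1 : m f ∈ Metric.closedBall (0 : ℂ) C :=
      Metric.isClosed_closedBall.mem_of_tendsto (hm f ⟨C, hC⟩)
        (Eventually.of_forall fun n => mem_closedBall_zero_iff.2 (hb n f C hC))
    exact mem_closedBall_zero_iff.1 h1
  · intro g f hf
    have h1 := hm _ (hf.comp fun x => g⁻¹ * x)
    have h2 := hm f hf
    have h3 := h1.sub h2
    have h4 := tendsto_nhds_unique h3 ((hinv g f hf).mono_left hle)
    exact sub_eq_zero.1 h4

end lim

/-! ### Countable abelian groups -/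

section ab

variable {N : Type} [Group N]

/-- average over the powers of one element -/
noncomputable def avg (k : ℕ) (y : N) (f : N → ℂ) : N → ℂ :=
  fun x => (∑ c ∈ Finset.range (k + 1), f (y ^ c * x)) / ((k : ℂ) + 1)

theorem kne (k : ℕ) : ((k : ℂ) + 1) ≠ 0 := by
  exact_mod_cast Nat.succ_ne_zero k

theorem avg_add (k : ℕ) (y : N) (f h : N → ℂ) :
    avg k y (fun x => f x + h x) = fun x => avg k y f x + avg k y h x := by
  funext x
  simp only [avg]
  rw [Finset.sum_add_distrib, add_div]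

theorem avg_smul (k : ℕ) (y : N) (c : ℂ) (f : N → ℂ) :
    avg k y (fun x => c * f x) = fun x => c * avg k y f x := by
  funext x
  simp only [avg]
  rw [← Finset.mul_sum, mul_div_assoc]

theorem avg_one (k : ℕ) (y : N) : avg k y (fun _ => (1 : ℂ)) = fun _ => 1 := by
  funext x
  simp only [avg, Finset.sum_const, Finset.card_range, nsmul_eq_mul, mul_one]
  push_cast
  exact div_self (kne k)

theorem avg_bound (k : ℕ) (y : N) (f : N → ℂ) (C : ℝ) (hC : ∀ x, ‖f x‖ ≤ C) (x : N) :
    ‖avg k y f x‖ ≤ C := by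
  have hk : (0 : ℝ) < (k : ℝ) + 1 := by positivity
  have hn : ‖((k : ℂ) + 1)‖ = (k : ℝ) + 1 := by
    have : ((k : ℂ) + 1) = ((k + 1 : ℕ) : ℂ) := by push_cast; ring
    rw [this, Complex.norm_natCast]
    push_cast
    ring
  simp only [avg]
  rw [norm_div, hn, div_le_iff₀ hk]
  refine (norm_sum_le _ _).trans ?_
  refine (Finset.sum_le_card_nsmul _ _ C fun c _ => hC _).trans ?_
  rw [Finset.card_range, nsmul_eq_mul, mul_comm]
  push_cast
  exact le_refl _

theorem avg_shift (k : ℕ) (y : N) (f : N → ℂ) (C : ℝ) (hC : ∀ x, ‖f x‖ ≤ C) (x : N) :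
    ‖avg k y (fun z => f (y⁻¹ * z) + (-1) * f z) x‖ ≤ 2 * C / ((k : ℝ) + 1) := by
  have hk : (0 : ℝ) < (k : ℝ) + 1 := by positivity
  have hn : ‖((k : ℂ) + 1)‖ = (k : ℝ) + 1 := by
    have : ((k : ℂ) + 1) = ((k + 1 : ℕ) : ℂ) := by push_cast; ring
    rw [this, Complex.norm_natCast]
    push_cast
    ring
  simp only [avg]
  rw [norm_div, hn]
  apply div_le_div_of_nonneg_right _ hk.le
  have e : ∑ c ∈ Finset.range (k + 1), (f (y⁻¹ * (y ^ c * x)) + (-1) * f (y ^ c * x)) =
      f (y⁻¹ * x) - f (y ^ k * x) := by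
    have h1 : ∀ c, f (y⁻¹ * (y ^ c * x)) + (-1) * f (y ^ c * x) =
        f (y⁻¹ * (y ^ c * x)) - f (y⁻¹ * (y ^ (c + 1) * x)) := by
      intro c
      rw [pow_succ', mul_assoc, inv_mul_cancel_left]
      ring
    simp only [h1]
    rw [Finset.sum_range_sub' (fun c => f (y⁻¹ * (y ^ c * x)))]
    rw [pow_zero, one_mul, pow_succ', mul_assoc, inv_mul_cancel_left]
  rw [e]
  refine (norm_sub_le _ _).trans ?_
  linarith [hC (y⁻¹ * x), hC (y ^ k * x)]

/-- iterated averages -/
noncomputable def avgs (k : ℕ) : List N → (N → ℂ) → N → ℂ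
  | [], f => f
  | (y :: l), f => avg k y (avgs k l f)

theorem avgs_add (k : ℕ) (l : List N) (f h : N → ℂ) :
    avgs k l (fun x => f x + h x) = fun x => avgs k l f x + avgs k l h x := by
  induction l with
  | nil => rfl
  | cons y l ih => rw [avgs, ih, avg_add]; rfl

theorem avgs_smul (k : ℕ) (l : List N) (c : ℂ) (f : N → ℂ) :
    avgs k l (fun x => c * f x) = fun x => c * avgs k l f x := by
  induction l with
  | nil => rfl
  | cons y l ih => rw [avgs, ih, avg_smul]; rfl

theorem avgs_one (k : ℕ) (l : List N) : avgs k l (fun _ => (1 : ℂ)) = fun _ => 1 := by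
  induction l with
  | nil => rfl
  | cons y l ih => rw [avgs, ih, avg_one]

theorem avgs_bound (k : ℕ) (l : List N) (f : N → ℂ) (C : ℝ) (hC : ∀ x, ‖f x‖ ≤ C) :
    ∀ x, ‖avgs k l f x‖ ≤ C := by
  induction l with
  | nil => exact hC
  | cons y l ih => exact avg_bound k y _ C ih

theorem avgs_comm (hc : ∀ x y : N, x * y = y * x) (k : ℕ) (l : List N) (f : N → ℂ) (g : N) :
    avgs k l (fun x => f (g * x)) = fun x => avgs k l f (g * x) := by
  induction l with
  | nil => rfl
  | cons y l ih =>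
    rw [avgs, ih]
    funext x
    simp only [avg, avgs]
    congr 1
    refine Finset.sum_congr rfl fun c _ => ?_
    rw [← mul_assoc, hc g, mul_assoc]

theorem avgs_shift (hc : ∀ x y : N, x * y = y * x) (k : ℕ) (l : List N) (f : N → ℂ) (C : ℝ)
    (hC : ∀ x, ‖f x‖ ≤ C) (g : N) (hg : g ∈ l) :
    ∀ x, ‖avgs k l (fun z => f (g⁻¹ * z) + (-1) * f z) x‖ ≤ 2 * C / ((k : ℝ) + 1) := by
  induction l with
  | nil => simp at hg
  | cons y l ih =>
    by_cases hy : g = y
    · subst hy
      intro x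
      rw [avgs]
      have e : avgs k l (fun z => f (g⁻¹ * z) + (-1) * f z) =
          fun z => avgs k l f (g⁻¹ * z) + (-1) * avgs k l f z := by
        rw [avgs_add, avgs_comm hc, avgs_smul]
      rw [e]
      exact avg_shift k g _ C (avgs_bound k l f C hC) x
    · have hgl : g ∈ l := by
        rcases List.mem_cons.1 hg with h | h
        · exact absurd h hy
        · exact h
      exact avg_bound k y _ _ (ih hgl)

/-- Countable abelian groups are amenable. -/
theorem amenable_abelian [Countable N] (hc : ∀ x y : N, x * y = y * x) : Amenable N := by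
  obtain ⟨e, he⟩ := exists_surjective_nat N
  let l : ℕ → List N := fun k => (List.range k).map e
  apply amenable_of_lim (fun k f => avgs k (l k) f 1)
  · intro k f h _ _
    show avgs k (l k) (fun x => f x + h x) 1 = _
    rw [avgs_add]
  · intro k c f _
    show avgs k (l k) (fun x => c * f x) 1 = _
    rw [avgs_smul]
  · intro k
    show avgs k (l k) (fun _ => 1) 1 = _
    rw [avgs_one]
  · intro k f C hC
    exact avgs_bound k (l k) f C hC 1
  · intro g f hf
    obtain ⟨C, hC⟩ := hf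
    obtain ⟨j, rfl⟩ := he g
    have h1 : Tendsto (fun k : ℕ => 2 * C / ((k : ℝ) + 1)) atTop (𝓝 0) := by
      have := tendsto_one_div_add_atTop_nhds_zero_nat (𝕜 := ℝ)
      have h2 := this.const_mul (2 * C)
      rw [mul_zero] at h2
      refine h2.congr fun k => ?_
      ring
    apply squeeze_zero_norm' _ h1
    filter_upwards [eventually_gt_atTop j] with k hk
    have h2 := avgs_shift hc k (l k) f C hC (e j)
      (List.mem_map.2 ⟨j, List.mem_range.2 hk, rfl⟩) 1
    rw [avgs_add, avgs_smul] at h2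
    have e1 : avgs k (l k) (fun x => f ((e j)⁻¹ * x)) 1 - avgs k (l k) f 1 =
        avgs k (l k) (fun z => f ((e j)⁻¹ * z)) 1 + (-1) * avgs k (l k) f 1 := by ring
    rw [e1]
    exact h2

end ab

/-! ### Extensions -/

/-- Extensions of amenable groups are amenable. -/
theorem amenable_ext {G Q : Type} [Group G] [Group Q] (π : G →* Q)
    (hπ : Function.Surjective π) (hN : Amenable π.ker) (hQ : Amenable Q) : Amenable G := by
  obtain ⟨m, ma, ms, m1, mb, mi⟩ := hN
  obtain ⟨p, pa, ps, p1, pb, pi⟩ := hQ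
  choose σ hσ using hπ
  let F : (G → ℂ) → Q → ℂ := fun f q => m fun n : π.ker => f (σ q * (n : G))
  have hFb : ∀ (f : G → ℂ) (C : ℝ), (∀ x, ‖f x‖ ≤ C) → ∀ q, ‖F f q‖ ≤ C := by
    intro f C hC q
    exact mb _ C fun n => hC _
  have hFB : ∀ f : G → ℂ, Bounded f → Bounded (F f) := by
    rintro f ⟨C, hC⟩
    exact ⟨C, hFb f C hC⟩
  refine ⟨fun f => p (F f), ?_, ?_, ?_, ?_, ?_⟩
  · intro f h hf hh
    have e : F (fun x => f x + h x) = fun q => F f q + F h q := by
      funext q
      exact ma _ _ (hf.comp _) (hh.comp _)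
    show p (F fun x => f x + h x) = _
    rw [e]
    exact pa _ _ (hFB f hf) (hFB h hh)
  · intro c f hf
    have e : F (fun x => c * f x) = fun q => c * F f q := by
      funext q
      exact ms c _ (hf.comp _)
    show p (F fun x => c * f x) = _
    rw [e]
    exact ps c _ (hFB f hf)
  · have e : F (fun _ => 1) = fun _ => 1 := by
      funext q
      exact m1
    show p (F fun _ => 1) = 1
    rw [e]
    exact p1
  · intro f C hC
    exact pb _ C (hFb f C hC)
  · intro g f hf
    have e : F (fun x => f (g⁻¹ * x)) = fun q => F f ((π g)⁻¹ * q) := by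
      funext q
      have hk : (σ ((π g)⁻¹ * q))⁻¹ * (g⁻¹ * σ q) ∈ π.ker := by
        rw [MonoidHom.mem_ker]
        simp only [map_mul, map_inv, hσ]
        group
      let n₀ : π.ker := ⟨_, hk⟩
      have h1 := mi n₀⁻¹ (fun n : π.ker => f (σ ((π g)⁻¹ * q) * (n : G))) (hf.comp _)
      show m (fun n : π.ker => f (g⁻¹ * (σ q * (n : G)))) =
        m (fun n : π.ker => f (σ ((π g)⁻¹ * q) * (n : G)))
      rw [← h1]
      congr 1
      funext n
      congr 1
      show g⁻¹ * (σ q * (n : G)) = σ ((π g)⁻¹ * q) *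
        (((n₀⁻¹)⁻¹ * n : π.ker) : G)
      rw [inv_inv, Subgroup.coe_mul]
      show g⁻¹ * (σ q * (n : G)) = σ ((π g)⁻¹ * q) *
        ((σ ((π g)⁻¹ * q))⁻¹ * (g⁻¹ * σ q) * (n : G))
      group
    show p (F fun x => f (g⁻¹ * x)) = _
    rw [e]
    exact pi _ _ (hFB f hf)

end Pool.Agent.FGA
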