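import Pool.Agent.FGA.Grig
import Pool.Agent.FGA.Mean

/-!
# The group of Grigorchuk is amenable
-/

set_option autoImplicit false

namespace Pool.Agent.FGA

open Filter Topology

theorem summable_words (r : ℝ) (h0 : 0 ≤ r) (h : 4 * r < 1) :
    Summable fun w : List Lt => r ^ w.length := by
  rw [← (Equiv.sigmaFiberEquiv (List.length : List Lt → ℕ)).summable_iff]
  have hn : ∀ x : (Σ n : ℕ, {w : List Lt // w.length = n}),
      0 ≤ ((fun w : List Lt => r ^ w.length) ∘
        (Equiv.sigmaFiberEquiv (List.length : List Lt → ℕ))) x := fun x => pow_nonneg h0 _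
  rw [summable_sigma_of_nonneg hn]
  have hf : ∀ n, Finite {w : List Lt // w.length = n} := fun n =>
    (inferInstance : Finite (List.Vector Lt n))
  refine ⟨fun n => ?_, ?_⟩
  · haveI := hf n
    have := Fintype.ofFinite {w : List Lt // w.length = n}
    exact (hasSum_fintype _).summable
  · have e : ∀ n, ∑' y : {w : List Lt // w.length = n},
        ((fun w : List Lt => r ^ w.length) ∘
          (Equiv.sigmaFiberEquiv (List.length : List Lt → ℕ))) ⟨n, y⟩ = (4 * r) ^ n := by
      intro n
      have h1 : ∀ y : {w : List Lt // w.length = n},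
          ((fun w : List Lt => r ^ w.length) ∘
            (Equiv.sigmaFiberEquiv (List.length : List Lt → ℕ))) ⟨n, y⟩ = r ^ n := by
        intro y
        show r ^ (y.1.length) = r ^ n
        rw [y.2]
      simp only [h1]
      have h2 : Fintype.card (List.Vector Lt n) = 4 ^ n := by
        rw [card_vector]
        rfl
      have h3 : ∑' _ : List.Vector Lt n, r ^ n = 4 ^ n * r ^ n := by
        rw [tsum_fintype, Finset.sum_const, Finset.card_univ, h2, nsmul_eq_mul]
        push_cast
        ring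
      rw [mul_pow]
      exact h3
    simp only [e]
    exact summable_geometric_of_lt_one (by positivity) h

/-- the weight function -/
noncomputable def Fs (s : ℝ) (g : Gam) : ℝ := Real.exp (-(s * len g))

theorem Fs_pos (s : ℝ) (g : Gam) : 0 < Fs s g := Real.exp_pos _

theorem Fs_large (s : ℝ) (hs : 2 ≤ s) : Summable (Fs s) := by
  choose mw hmw using len_spec
  have hinj : Function.Injective mw := fun g h e => by
    rw [← (hmw g).1, ← (hmw h).1, e]
  have hr : 4 * Real.exp (-2) < 1 := by
    have h1 : (2.7 : ℝ) < Real.exp 1 := by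
      have := Real.exp_one_gt_d9
      linarith
    have h2 : Real.exp 2 = Real.exp 1 * Real.exp 1 := by
      rw [← Real.exp_add]
      norm_num
    have h3 : (4 : ℝ) < Real.exp 2 := by
      rw [h2]
      nlinarith
    rw [Real.exp_neg]
    have h4 : 0 < Real.exp 2 := Real.exp_pos 2
    rw [← div_eq_mul_inv, div_lt_one h4]
    exact h3
  have h1 := (summable_words (Real.exp (-2)) (Real.exp_pos _).le hr).comp_injective hinj
  refine Summable.of_nonneg_of_le (fun g => (Fs_pos s g).le) (fun g => ?_) h1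
  show Fs s g ≤ Real.exp (-2) ^ (mw g).length
  rw [← Real.exp_nat_mul]
  apply Real.exp_le_exp.2
  have h2 : ((mw g).length : ℝ) ≤ len g := by
    rw [← (hmw g).2]
    exact_mod_cast length_le_L _
  have h3 : (0 : ℝ) ≤ ((mw g).length : ℝ) := Nat.cast_nonneg _
  nlinarith

theorem Fs_step (s : ℝ) (hs : 0 < s) (h : Summable (Fs (6 / 5 * s))) : Summable (Fs s) := by
  have h1 : Summable fun x : Gam × Gam => Fs (6 / 5 * s) x.1 * Fs (6 / 5 * s) x.2 :=
    h.mul_of_nonneg h (fun g => (Fs_pos _ g).le) (fun g => (Fs_pos _ g).le)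
  have h2 : Summable fun x : Bool × (Gam × Gam) =>
      (1 : ℝ) * (Fs (6 / 5 * s) x.2.1 * Fs (6 / 5 * s) x.2.2) := by
    have hB : Summable fun _ : Bool => (1 : ℝ) := (hasSum_fintype _).summable
    exact hB.mul_of_nonneg h1 (fun _ => zero_le_one)
      (fun x => mul_nonneg (Fs_pos _ _).le (Fs_pos _ _).le)
  have h3 := (h2.comp_injective code_inj).mul_left (Real.exp (3 * s))
  refine Summable.of_nonneg_of_le (fun g => (Fs_pos s g).le) (fun g => ?_) h3
  show Fs s g ≤ Real.exp (3 * s) * (1 * (Fs (6 / 5 * s) (sq g false) * Fs (6 / 5 * s) (sq g true)))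
  unfold Fs
  rw [one_mul, ← Real.exp_add, ← Real.exp_add]
  apply Real.exp_le_exp.2
  have h4 : (6 : ℝ) * (len (sq g false) + len (sq g true)) ≤ 5 * (len g + 3) := by
    exact_mod_cast len_sq g
  have h5 := mul_le_mul_of_nonneg_left h4 hs.le
  nlinarith

theorem Fs_summable (s : ℝ) (hs : 0 < s) : Summable (Fs s) := by
  have key : ∀ k : ℕ, ∀ s : ℝ, 0 < s → 2 ≤ (6 / 5 : ℝ) ^ k * s → Summable (Fs s) := by
    intro k
    induction k with
    | zero =>
      intro s _ h
      rw [pow_zero, one_mul] at h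
      exact Fs_large s h
    | succ k ih =>
      intro s hs h
      apply Fs_step s hs
      apply ih _ (by positivity)
      rw [pow_succ] at h
      linarith
  obtain ⟨k, hk⟩ := pow_unbounded_of_one_lt (2 / s) (show (1 : ℝ) < 6 / 5 by norm_num)
  apply key k s hs
  rw [div_lt_iff₀ hs] at hk
  exact hk.le

/-- the normalised functionals -/
noncomputable def Ph (s : ℝ) (f : Gam → ℂ) : ℂ :=
  (∑' g, f g * (Fs s g : ℂ)) / ((∑' g, Fs s g : ℝ) : ℂ)

theorem tot_pos (s : ℝ) (hs : 0 < s) : 0 < ∑' g, Fs s g :=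
  (Fs_summable s hs).tsum_pos (fun g => (Fs_pos s g).le) 1 (Fs_pos s 1)

theorem bd_summable (s : ℝ) (hs : 0 < s) (f : Gam → ℂ) (hf : Bounded f) :
    Summable fun g => ‖f g * (Fs s g : ℂ)‖ := by
  obtain ⟨C, hC⟩ := hf
  refine Summable.of_nonneg_of_le (fun g => norm_nonneg _) (fun g => ?_)
    ((Fs_summable s hs).mul_left C)
  rw [norm_mul, Complex.norm_real, Real.norm_of_nonneg (Fs_pos s g).le]
  exact mul_le_mul_of_nonneg_right (hC g) (Fs_pos s g).le

theorem Ph_bound (s : ℝ) (hs : 0 < s) (f : Gam → ℂ) (C : ℝ) (hC : ∀ x, ‖f x‖ ≤ C) :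
    ‖Ph s f‖ ≤ C := by
  have ht := tot_pos s hs
  unfold Ph
  rw [norm_div, Complex.norm_real, Real.norm_of_nonneg ht.le, div_le_iff₀ ht]
  refine (norm_tsum_le_tsum_norm (bd_summable s hs f ⟨C, hC⟩)).trans ?_
  rw [← tsum_mul_left]
  refine (bd_summable s hs f ⟨C, hC⟩).tsum_le_tsum (fun g => ?_) ((Fs_summable s hs).mul_left C)
  rw [norm_mul, Complex.norm_real, Real.norm_of_nonneg (Fs_pos s g).le]
  exact mul_le_mul_of_nonneg_right (hC g) (Fs_pos s g).le

theorem Ph_shift (s : ℝ) (hs : 0 < s) (w : List Lt) (f : Gam → ℂ) (C : ℝ)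
    (hC : ∀ x, ‖f x‖ ≤ C) :
    ‖Ph s (fun x => f ((el w)⁻¹ * x)) - Ph s f‖ ≤ C * (Real.exp (s * L w) - 1) := by
  have ht := tot_pos s hs
  have hC0 : 0 ≤ C := (norm_nonneg _).trans (hC 1)
  have h1 : ∑' g, f ((el w)⁻¹ * g) * (Fs s g : ℂ) = ∑' g, f g * (Fs s (el w * g) : ℂ) := by
    rw [← (Equiv.mulLeft (el w)).tsum_eq]
    refine tsum_congr fun g => ?_
    simp only [Equiv.coe_mulLeft, inv_mul_cancel_left]
  have hsum1 : Summable fun g => f g * (Fs s (el w * g) : ℂ) := by
    have h2 := (bd_summable s hs (fun x => f ((el w)⁻¹ * x)) ⟨C, fun x => hC _⟩).of_norm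
    have h3 := (Equiv.mulLeft (el w)).summable_iff.2 h2
    refine h3.congr fun g => ?_
    simp only [Function.comp_apply, Equiv.coe_mulLeft, inv_mul_cancel_left]
  have hsum2 := (bd_summable s hs f ⟨C, hC⟩).of_norm
  unfold Ph
  rw [h1, ← sub_div, norm_div, Complex.norm_real, Real.norm_of_nonneg ht.le, div_le_iff₀ ht,
    ← hsum1.tsum_sub hsum2]
  have hb : ∀ g, ‖f g * (Fs s (el w * g) : ℂ) - f g * (Fs s g : ℂ)‖ ≤
      C * (Real.exp (s * L w) - 1) * Fs s g := by
    intro g
    rw [← mul_sub, norm_mul, ← Complex.ofReal_sub, Complex.norm_real, Real.norm_eq_abs, mul_assoc]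
    apply mul_le_mul (hC g) _ (abs_nonneg _) hC0
    have hl1 : (len (el w * g) : ℝ) ≤ L w + len g := by exact_mod_cast len_mul w g
    have hl2 : (len g : ℝ) ≤ L w + len (el w * g) := by
      have h5 := len_mul w.reverse (el w * g)
      have h6 : el w.reverse = (el w)⁻¹ := Subtype.ext (elt_reverse w)
      have h7 : L w.reverse = L w := by simp [L]
      rw [h6, inv_mul_cancel_left, h7] at h5
      exact_mod_cast h5
    have hx : 0 ≤ s * (L w : ℝ) := by positivity
    have hE : 1 ≤ Real.exp (s * L w) := Real.one_le_exp hx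
    rw [abs_le]
    constructor
    · -- lower bound
      have h8 : Fs s g ≤ Real.exp (s * L w) * Fs s (el w * g) := by
        unfold Fs
        rw [← Real.exp_add]
        apply Real.exp_le_exp.2
        nlinarith
      have h9 : Fs s g * Real.exp (s * L w) ≥ Fs s g := le_mul_of_one_le_right (Fs_pos s g).le hE
      have h10 := Fs_pos s g
      have h11 := Fs_pos s (el w * g)
      -- `F g - F (wg) ≤ (1 - 1/E) F g ≤ (E - 1) F g`
      have h12 : Fs s g * (Real.exp (s * L w))⁻¹ ≤ Fs s (el w * g) := by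
        rw [← div_eq_mul_inv, div_le_iff₀ (Real.exp_pos _)]
        linarith
      have h13 : 2 ≤ Real.exp (s * L w) + (Real.exp (s * L w))⁻¹ := by
        have h14 : 0 < Real.exp (s * L w) := Real.exp_pos _
        have h15 : Real.exp (s * L w) * (Real.exp (s * L w))⁻¹ = 1 := mul_inv_cancel₀ h14.ne'
        have h16 : 0 < (Real.exp (s * L w))⁻¹ := inv_pos.2 h14
        nlinarith [sq_nonneg (Real.exp (s * L w) - 1)]
      nlinarith
    · have h8 : Fs s (el w * g) ≤ Real.exp (s * L w) * Fs s g := by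
        unfold Fs
        rw [← Real.exp_add]
        apply Real.exp_le_exp.2
        nlinarith
      linarith
  refine (norm_tsum_le_tsum_norm ?_).trans ?_
  · exact Summable.of_nonneg_of_le (fun g => norm_nonneg _) hb ((Fs_summable s hs).mul_left _)
  · rw [← tsum_mul_left]
    exact (Summable.of_nonneg_of_le (fun g => norm_nonneg _) hb
      ((Fs_summable s hs).mul_left _)).tsum_le_tsum hb ((Fs_summable s hs).mul_left _)

theorem amenable_Gam : Amenable Gam := by
  have hs : ∀ k : ℕ, (0 : ℝ) < 1 / ((k : ℝ) + 1) := fun k => by positivity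
  apply amenable_of_lim (fun k f => Ph (1 / ((k : ℝ) + 1)) f)
  · intro k f h hf hh
    show Ph _ _ = Ph _ _ + Ph _ _
    unfold Ph
    rw [← add_div, ← (bd_summable _ (hs k) f hf).of_norm.tsum_add
      (bd_summable _ (hs k) h hh).of_norm]
    congr 1
    refine tsum_congr fun g => ?_
    ring
  · intro k c f hf
    show Ph _ _ = c * Ph _ _
    unfold Ph
    rw [mul_div_assoc', ← tsum_mul_left]
    congr 1
    refine tsum_congr fun g => ?_
    ring
  · intro k
    show Ph _ _ = 1
    unfold Ph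
    simp only [one_mul]
    rw [← Complex.ofReal_tsum]
    exact div_self (by exact_mod_cast (tot_pos _ (hs k)).ne')
  · intro k f C hC
    exact Ph_bound _ (hs k) f C hC
  · intro g f hf
    obtain ⟨C, hC⟩ := hf
    obtain ⟨w, rfl⟩ := el_surj g
    have h1 : Tendsto (fun k : ℕ => C * (Real.exp (1 / ((k : ℝ) + 1) * L w) - 1)) atTop (𝓝 0) := by
      have h2 := tendsto_one_div_add_atTop_nhds_zero_nat (𝕜 := ℝ)
      have h3 := h2.mul_const (L w : ℝ)
      have h4 := (Real.continuous_exp.tendsto _).comp h3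
      have h5 := (h4.sub_const 1).const_mul C
      rw [zero_mul, Real.exp_zero, sub_self, mul_zero] at h5
      exact h5
    exact squeeze_zero_norm (fun k => Ph_shift _ (hs k) w f C hC) h1

end Pool.Agent.FGA
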