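import Pool.Agent.FGA.Defs

/-!
# The kernel of `ℓ¹(G) → ℓ¹(Q)`
-/

set_option autoImplicit false

namespace Pool.Agent.FGA

open Filter Topology Classical

variable {G Q : Type} [Group G] [Group Q] (π : G →* Q)

/-- the sum over a fibre -/
noncomputable def phi (q : Q) (f : G → ℂ) : ℂ := ∑' x, if π x = q then f x else 0

/-- The kernel of `ℓ¹(G) → ℓ¹(Q)`. -/
def Ker : Set (G → ℂ) := {f | f ∈ ell G ∧ ∀ q : Q, phi π q f = 0}

omit [Group G] in
theorem ell_comb {f g : G → ℂ} (hf : f ∈ ell G) (hg : g ∈ ell G) (c : ℂ) :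
    (fun x => c * f x + g x) ∈ ell G := by
  have hf' : Summable fun x => ‖c‖ * ‖f x‖ := Summable.mul_left _ hf
  refine Summable.of_nonneg_of_le (fun _ => norm_nonneg _) (fun x => ?_) (hf'.add hg)
  refine (norm_add_le (c * f x) (g x)).trans ?_
  rw [norm_mul]

omit [Group G] in
theorem ell_zero : (fun _ : G => (0 : ℂ)) ∈ ell G := by
  show Summable fun _ : G => ‖(0 : ℂ)‖
  rw [norm_zero]
  exact summable_zero

theorem fib_summable {f : G → ℂ} (hf : f ∈ ell G) (q : Q) :
    Summable fun x => ‖if π x = q then f x else 0‖ := by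
  refine Summable.of_nonneg_of_le (fun _ => norm_nonneg _) (fun x => ?_) hf
  split_ifs
  · exact le_refl _
  · rw [norm_zero]
    exact norm_nonneg _

theorem phi_comb {f g : G → ℂ} (hf : f ∈ ell G) (hg : g ∈ ell G) (c : ℂ) (q : Q) :
    phi π q (fun x => c * f x + g x) = c * phi π q f + phi π q g := by
  unfold phi
  rw [← tsum_mul_left, ← ((fib_summable π hf q).of_norm.mul_left c).tsum_add
    (fib_summable π hg q).of_norm]
  refine tsum_congr fun x => ?_
  split_ifs <;> ring

theorem phi_zero (q : Q) : phi π q (fun _ => 0) = 0 := by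
  unfold phi
  simp

/-- finite combinations -/
theorem comb {n : ℕ} (u : Fin n → G → ℂ) (hu : ∀ i, u i ∈ ell G) (a : Fin n → ℂ)
    (s : Finset (Fin n)) : (fun x => ∑ i ∈ s, a i * u i x) ∈ ell G ∧
      ∀ q, phi π q (fun x => ∑ i ∈ s, a i * u i x) = ∑ i ∈ s, a i * phi π q (u i) := by
  induction s using Finset.induction_on with
  | empty =>
    simp only [Finset.sum_empty]
    exact ⟨ell_zero, phi_zero π⟩
  | insert i s hi ih =>
    have e : (fun x => ∑ j ∈ insert i s, a j * u j x) =
        fun x => a i * u i x + ∑ j ∈ s, a j * u j x := by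
      funext x
      rw [Finset.sum_insert hi]
    rw [e]
    refine ⟨ell_comb (hu i) ih.1 (a i), fun q => ?_⟩
    rw [phi_comb π (hu i) ih.1 (a i) q, ih.2, Finset.sum_insert hi]

theorem diff {n : ℕ} (u : Fin n → G → ℂ) (hu : ∀ i, u i ∈ ell G) (a : Fin n → ℂ)
    {f : G → ℂ} (hf : f ∈ ell G) : (fun x => f x - ∑ i, a i * u i x) ∈ ell G ∧
      ∀ q, phi π q (fun x => f x - ∑ i, a i * u i x) = phi π q f - ∑ i, a i * phi π q (u i) := by
  have h := comb π u hu a Finset.univ
  have e : (fun x => f x - ∑ i, a i * u i x) = fun x => (-1) * (∑ i, a i * u i x) + f x := by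
    funext x
    ring
  rw [e]
  refine ⟨ell_comb h.1 hf (-1), fun q => ?_⟩
  rw [phi_comb π h.1 hf (-1) q, h.2]
  ring

/-! ### Convolutions -/

section conv

variable {f g : G → ℂ} (hf : f ∈ ell G) (hg : g ∈ ell G)

include hf hg

omit [Group G] in
theorem prod_summable : Summable fun p : G × G => ‖f p.1 * g p.2‖ := by
  have hf' : Summable fun x => ‖f x‖ := hf
  have hg' : Summable fun x => ‖g x‖ := hg
  exact (summable_mul_of_summable_norm hf' hg').norm

theorem conv_summable : Summable fun p : G × G => ‖f p.2 * g (p.2⁻¹ * p.1)‖ := by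
  have h2 : Function.Injective (fun p : G × G => ((p.2, p.2⁻¹ * p.1) : G × G)) := by
    rintro ⟨x, y⟩ ⟨x', y'⟩ h
    have e1 : y = y' := congrArg Prod.fst h
    subst e1
    have e2 : y⁻¹ * x = y⁻¹ * x' := congrArg Prod.snd h
    rw [mul_left_cancel e2]
  have h := (prod_summable hf hg).comp_injective h2
  exact h

theorem conv_mem : conv f g ∈ ell G := by
  have h3 := conv_summable hf hg
  have h4 : ∀ x, Summable fun y => ‖f y * g (y⁻¹ * x)‖ := fun x => h3.prod_factor x
  have h5 : Summable fun x => ∑' y, ‖f y * g (y⁻¹ * x)‖ := h3.prod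
  have h6 : ∀ x, ‖conv f g x‖ ≤ ∑' y, ‖f y * g (y⁻¹ * x)‖ := fun x => by
    unfold conv
    exact norm_tsum_le_tsum_norm (h4 x)
  exact Summable.of_nonneg_of_le (fun _ => norm_nonneg _) h6 h5

/-- the sum of a convolution over a fibre -/
theorem phi_conv (q : Q) : phi π q (conv f g) =
    ∑' p : G × G, if π (p.1 * p.2) = q then f p.1 * g p.2 else 0 := by
  have h1 : Summable fun p : G × G =>
      if π p.1 = q then f p.2 * g (p.2⁻¹ * p.1) else 0 := by
    apply Summable.of_norm
    refine Summable.of_nonneg_of_le (fun _ => norm_nonneg _) (fun p => ?_) (conv_summable hf hg)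
    split_ifs
    · exact le_refl _
    · rw [norm_zero]
      exact norm_nonneg _
  have h2 : phi π q (conv f g) =
      ∑' p : G × G, if π p.1 = q then f p.2 * g (p.2⁻¹ * p.1) else 0 := by
    rw [h1.tsum_prod]
    unfold phi conv
    refine tsum_congr fun x => ?_
    dsimp only
    split_ifs
    · rfl
    · simp
  rw [h2]
  let e : G × G ≃ G × G :=
    { toFun := fun p => (p.1 * p.2, p.1)
      invFun := fun p => (p.2, p.2⁻¹ * p.1)
      left_inv := fun p => by simp
      right_inv := fun p => by simp }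
  rw [← e.tsum_eq]
  refine tsum_congr fun p => ?_
  show (if π (p.1 * p.2) = q then f p.1 * g (p.1⁻¹ * (p.1 * p.2)) else 0) = _
  rw [inv_mul_cancel_left]

theorem fib_prod_summable (q : Q) :
    Summable fun p : G × G => if π (p.1 * p.2) = q then f p.1 * g p.2 else 0 := by
  apply Summable.of_norm
  refine Summable.of_nonneg_of_le (fun _ => norm_nonneg _) (fun p => ?_) (prod_summable hf hg)
  split_ifs
  · exact le_refl _
  · rw [norm_zero]
    exact norm_nonneg _

end conv

theorem left_ideal {f g : G → ℂ} (hf : f ∈ ell G) (hg : g ∈ Ker π) : conv f g ∈ Ker π := by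
  refine ⟨conv_mem hf hg.1, fun q => ?_⟩
  rw [phi_conv π hf hg.1, (fib_prod_summable π hf hg.1 q).tsum_prod]
  have h : ∀ x, (∑' y, if π (x * y) = q then f x * g y else 0) = 0 := by
    intro x
    have h1 := hg.2 ((π x)⁻¹ * q)
    unfold phi at h1
    have h2 : (∑' y, if π (x * y) = q then f x * g y else 0) =
        ∑' y, f x * (if π y = (π x)⁻¹ * q then g y else 0) := by
      refine tsum_congr fun y => ?_
      have h3 : (π (x * y) = q) ↔ (π y = (π x)⁻¹ * q) := by
        rw [map_mul, eq_inv_mul_iff_mul_eq]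
      simp only [h3]
      split_ifs
      · rfl
      · rw [mul_zero]
    rw [h2, tsum_mul_left, h1, mul_zero]
  simp only [h, tsum_zero]

theorem right_ideal {f g : G → ℂ} (hf : f ∈ ell G) (hg : g ∈ Ker π) : conv g f ∈ Ker π := by
  refine ⟨conv_mem hg.1 hf, fun q => ?_⟩
  rw [phi_conv π hg.1 hf]
  have hs := fib_prod_summable π hg.1 hf q
  rw [← (Equiv.prodComm G G).tsum_eq]
  have hs' : Summable fun p : G × G => if π (p.2 * p.1) = q then g p.2 * f p.1 else 0 :=
    (Equiv.prodComm G G).summable_iff.2 hs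
  have h0 : (∑' p : G × G, (fun p : G × G => if π (p.1 * p.2) = q then g p.1 * f p.2 else 0)
      ((Equiv.prodComm G G) p)) =
      ∑' p : G × G, if π (p.2 * p.1) = q then g p.2 * f p.1 else 0 := rfl
  rw [h0, hs'.tsum_prod]
  have h : ∀ x, (∑' y, if π (y * x) = q then g y * f x else 0) = 0 := by
    intro x
    have h1 := hg.2 (q * (π x)⁻¹)
    unfold phi at h1
    have h2 : (∑' y, if π (y * x) = q then g y * f x else 0) =
        ∑' y, (if π y = q * (π x)⁻¹ then g y else 0) * f x := by
      refine tsum_congr fun y => ?_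
      have h3 : (π (y * x) = q) ↔ (π y = q * (π x)⁻¹) := by
        rw [map_mul, eq_mul_inv_iff_mul_eq]
      simp only [h3]
      split_ifs
      · rfl
      · rw [zero_mul]
    rw [h2, tsum_mul_right, h1, zero_mul]
  simp only [h, tsum_zero]

/-- `Ker` is a closed ideal. -/
theorem closedIdeal_Ker : IsClosedIdeal (Ker π) := by
  refine ⟨fun f hf => hf.1, ⟨ell_zero, phi_zero π⟩, fun f hf g hg c =>
    ⟨ell_comb hf.1 hg.1 c, fun q => ?_⟩, fun f hf g hg => ⟨left_ideal π hf hg,
      right_ideal π hf hg⟩, fun f hf h => ⟨hf, fun q => ?_⟩⟩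
  · rw [phi_comb π hf.1 hg.1 c q, hf.2, hg.2, mul_zero, add_zero]
  · rw [← norm_eq_zero]
    apply le_antisymm _ (norm_nonneg _)
    apply le_of_forall_pos_lt_add
    intro ε hε
    obtain ⟨g, hg, hfg⟩ := h ε hε
    have e : (fun x => f x - g x) = fun x => (-1) * g x + f x := by
      funext x
      ring
    have hd : (fun x => f x - g x) ∈ ell G := by
      rw [e]
      exact ell_comb hg.1 hf (-1)
    have h1 : phi π q f = phi π q (fun x => f x - g x) := by
      rw [e, phi_comb π hg.1 hf (-1) q, hg.2, mul_zero, zero_add]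
    rw [h1, zero_add]
    refine lt_of_le_of_lt ?_ hfg
    unfold phi
    refine (norm_tsum_le_tsum_norm (fib_summable π hd q)).trans ?_
    refine (fib_summable π hd q).tsum_le_tsum (fun x => ?_) hd
    split_ifs
    · exact le_refl _
    · rw [norm_zero]
      exact norm_nonneg _

/-! ### Codimensions -/

omit [Group G] in
theorem single_mem (x : G) : (Pi.single x (1 : ℂ) : G → ℂ) ∈ ell G := by
  show Summable fun y => ‖(Pi.single x (1 : ℂ) : G → ℂ) y‖
  refine summable_of_ne_finset_zero (s := {x}) fun y hy => ?_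
  rw [Pi.single_eq_of_ne (fun h => hy (Finset.mem_singleton.2 h)), norm_zero]

theorem phi_single (q : Q) (x : G) :
    phi π q (Pi.single x (1 : ℂ)) = if π x = q then 1 else 0 := by
  unfold phi
  rw [tsum_eq_single x]
  · rw [Pi.single_eq_same]
  · intro y hy
    rw [Pi.single_eq_of_ne hy, ite_self]

theorem codim_le (H : Subgroup G) (hH : (π '' (H : Set G)).Finite) :
    ∃ n, CodimLE n (ellOn H) (Ker π) := by
  have hs : ∀ x ∈ H, (Pi.single x (1 : ℂ) : G → ℂ) ∈ ellOn H := fun x hx =>
    ⟨single_mem x, fun y hy => Pi.single_eq_of_ne (fun h => hy (by rwa [h])) _⟩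
  have := hH.fintype
  let n := Fintype.card (π '' (H : Set G))
  let e : Fin n ≃ (π '' (H : Set G)) := (Fintype.equivFin _).symm
  have hr : ∀ i : Fin n, ∃ h ∈ H, π h = (e i).1 := fun i => by
    obtain ⟨h, hh, hq⟩ := (e i).2
    exact ⟨h, hh, hq⟩
  choose r hr hrq using hr
  refine ⟨n, fun i => Pi.single (r i) 1, fun i => hs _ (hr i), fun f hf => ?_⟩
  refine ⟨fun i => phi π (e i).1 f, ?_⟩
  obtain ⟨h1, h2⟩ := diff π (fun i : Fin n => (Pi.single (r i) (1 : ℂ) : G → ℂ))
    (fun i => single_mem _) (fun i => phi π (e i).1 f) hf.1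
  refine ⟨h1, fun q => ?_⟩
  rw [h2]
  simp only [phi_single, hrq]
  by_cases hq : q ∈ π '' (H : Set G)
  · rw [Finset.sum_eq_single (e.symm ⟨q, hq⟩)]
    · rw [Equiv.apply_symm_apply, if_pos rfl, mul_one, sub_self]
    · intro i _ hi
      rw [if_neg, mul_zero]
      intro h3
      apply hi
      rw [Equiv.eq_symm_apply]
      exact Subtype.ext h3
    · intro h3
      exact absurd (Finset.mem_univ _) h3
  · have h4 : phi π q f = 0 := by
      unfold phi
      have h5 : ∀ x, (if π x = q then f x else 0) = 0 := by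
        intro x
        split_ifs with h6
        · apply hf.2
          intro hx
          exact hq ⟨x, hx, h6⟩
        · rfl
      simp only [h5, tsum_zero]
    rw [h4, zero_sub, neg_eq_zero]
    apply Finset.sum_eq_zero
    intro i _
    rw [if_neg, mul_zero]
    intro h3
    exact hq (h3 ▸ (e i).2)

theorem codim_infinite (hπ : Function.Surjective π) [Infinite Q] (n : ℕ) :
    ¬ CodimLE n (ell G) (Ker π) := by
  rintro ⟨u, hu, h⟩
  obtain ⟨b⟩ : Nonempty (Fin (n + 1) ↪ Q) := ⟨(Fin.valEmbedding).trans (Infinite.natEmbedding Q)⟩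
  have hg : ∀ j : Fin (n + 1), ∃ g : G, π g = b j := fun j => hπ (b j)
  choose g hg using hg
  -- the coordinates
  let Φ : (G → ℂ) → Fin (n + 1) → ℂ := fun f j => phi π (b j) f
  have h1 : Submodule.span ℂ (Set.range fun i => Φ (u i)) = ⊤ := by
    rw [eq_top_iff]
    intro w _
    obtain ⟨hf1, hf2⟩ := comb π (fun j : Fin (n + 1) => (Pi.single (g j) (1 : ℂ) : G → ℂ))
      (fun j => single_mem _) w Finset.univ
    obtain ⟨a, ha⟩ := h _ hf1
    have hd := (diff π u hu a hf1).2
    have h2 : w = ∑ i, a i • Φ (u i) := by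
      funext j
      have h3 := ha.2 (b j)
      rw [hd, hf2, sub_eq_zero] at h3
      rw [Finset.sum_apply]
      have h4 : ∑ i : Fin (n + 1), w i * phi π (b j) (Pi.single (g i) (1 : ℂ) : G → ℂ) = w j := by
        rw [Finset.sum_eq_single j]
        · rw [phi_single, hg, if_pos rfl, mul_one]
        · intro i _ hij
          rw [phi_single, hg, if_neg, mul_zero]
          intro h5
          exact hij (b.injective h5)
        · intro h5
          exact absurd (Finset.mem_univ j) h5
      rw [h4] at h3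
      exact h3
    rw [h2]
    exact Submodule.sum_mem _ fun i _ =>
      Submodule.smul_mem _ _ (Submodule.subset_span ⟨i, rfl⟩)
  have h2 := finrank_range_le_card (R := ℂ) (fun i => Φ (u i))
  unfold Set.finrank at h2
  rw [h1, finrank_top, Module.finrank_fintype_fun_eq_card, Fintype.card_fin, Fintype.card_fin] at h2
  omega

end Pool.Agent.FGA
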