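import Mathlib

/-!
# A torsion-free extension of a torsion group

Let `Q` be a group with generators `x s` (`s : T`).  `G` is the group of the pairs `(v, q)`, `q ∈ Q`
and `v` the flow of a path from `1` to `q` in the Cayley graph (an element of the free abelian
group on the edges `(y, s)`, from `y` to `y * x s`).
-/

set_option autoImplicit false

namespace Pool.Agent.FGA

variable {Q T : Type} [Group Q]

/-- The pairs. -/
@[ext]
structure W (Q T : Type) where
  /-- the flow -/
  v : Q × T →₀ ℤ
  /-- the end point -/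
  q : Q

/-- left translation of the edges -/
def tl (q : Q) : Q × T → Q × T := fun e => (q * e.1, e.2)

theorem tl_one : (tl (1 : Q) : Q × T → Q × T) = id := by
  funext e
  simp [tl]

theorem tl_mul (p q : Q) : (tl (p * q) : Q × T → Q × T) = tl p ∘ tl q := by
  funext e
  simp [tl, mul_assoc]

/-- left translation of the flows -/
noncomputable def mv (q : Q) : (Q × T →₀ ℤ) →+ (Q × T →₀ ℤ) :=
  Finsupp.mapDomain.addMonoidHom (tl q)

theorem mv_one (v : Q × T →₀ ℤ) : mv (1 : Q) v = v := by
  show Finsupp.mapDomain (tl 1) v = v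
  rw [tl_one, Finsupp.mapDomain_id]

theorem mv_mul (p q : Q) (v : Q × T →₀ ℤ) : mv (p * q) v = mv p (mv q v) := by
  show Finsupp.mapDomain (tl (p * q)) v = Finsupp.mapDomain (tl p) (Finsupp.mapDomain (tl q) v)
  rw [tl_mul, Finsupp.mapDomain_comp]

theorem mv_single (q y : Q) (s : T) (n : ℤ) :
    mv q (Finsupp.single (y, s) n) = Finsupp.single (q * y, s) n := by
  show Finsupp.mapDomain (tl q) _ = _
  rw [Finsupp.mapDomain_single]
  rfl

noncomputable instance : Mul (W Q T) := ⟨fun x y => ⟨x.v + mv x.q y.v, x.q * y.q⟩⟩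
noncomputable instance : One (W Q T) := ⟨⟨0, 1⟩⟩
noncomputable instance : Inv (W Q T) := ⟨fun x => ⟨-mv x.q⁻¹ x.v, x.q⁻¹⟩⟩

theorem W.mul_v (x y : W Q T) : (x * y).v = x.v + mv x.q y.v := rfl
theorem W.mul_q (x y : W Q T) : (x * y).q = x.q * y.q := rfl
theorem W.one_v : (1 : W Q T).v = 0 := rfl
theorem W.one_q : (1 : W Q T).q = 1 := rfl
theorem W.inv_v (x : W Q T) : (x⁻¹).v = -mv x.q⁻¹ x.v := rfl
theorem W.inv_q (x : W Q T) : (x⁻¹).q = x.q⁻¹ := rfl

noncomputable instance : Group (W Q T) :=
  Group.ofLeftAxioms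
    (fun x y z => by
      apply W.ext
      · simp only [W.mul_v, W.mul_q, map_add, mv_mul, add_assoc]
      · simp only [W.mul_q, mul_assoc])
    (fun x => by
      apply W.ext
      · rw [W.mul_v, W.one_v, W.one_q, mv_one, zero_add]
      · rw [W.mul_q, W.one_q, one_mul])
    (fun x => by
      apply W.ext
      · rw [W.mul_v, W.inv_v, W.inv_q, W.one_v, neg_add_cancel]
      · rw [W.mul_q, W.inv_q, W.one_q, inv_mul_cancel])

/-- The projection. -/
noncomputable def pr : W Q T →* Q where
  toFun := W.q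
  map_one' := rfl
  map_mul' := fun _ _ => rfl

/-- the step along an edge of type `s` -/
noncomputable def st (x : T → Q) (s : T) : W Q T := ⟨Finsupp.single (1, s) 1, x s⟩

/-- The group of the paths. -/
noncomputable def PG (x : T → Q) : Subgroup (W Q T) := Subgroup.closure (Set.range (st x))

/-- The sum of the differences of a function along a flow. -/
noncomputable def Th {A : Type} [AddCommGroup A] (x : T → Q) (τ : Q → A) :
    (Q × T →₀ ℤ) →+ A :=
  Finsupp.liftAddHom fun e : Q × T => (zmultiplesHom A) (τ (e.1 * x e.2) - τ e.1)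

theorem Th_single {A : Type} [AddCommGroup A] (x : T → Q) (τ : Q → A) (y : Q) (s : T) (n : ℤ) :
    Th x τ (Finsupp.single (y, s) n) = n • (τ (y * x s) - τ y) := by
  unfold Th
  rw [Finsupp.liftAddHom_apply_single]
  rfl

/-- The boundary of the flow of a path. -/
theorem Th_eq {A : Type} [AddCommGroup A] (x : T → Q) (z : W Q T) (hz : z ∈ PG x) :
    ∀ τ : Q → A, Th x τ z.v = τ z.q - τ 1 := by
  have hmv : ∀ (q : Q) (v : Q × T →₀ ℤ) (τ : Q → A),
      Th x τ (mv q v) = Th x (fun y => τ (q * y)) v := by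
    intro q v τ
    have h : (Th x τ).comp (mv q) = Th x (fun y => τ (q * y)) := by
      apply Finsupp.addHom_ext
      rintro ⟨y, s⟩ n
      rw [AddMonoidHom.comp_apply, mv_single, Th_single, Th_single, mul_assoc]
    exact DFunLike.congr_fun h v
  unfold PG at hz
  induction hz using Subgroup.closure_induction with
  | mem z hz =>
    obtain ⟨s, rfl⟩ := hz
    intro τ
    show Th x τ (Finsupp.single (1, s) 1) = τ (x s) - τ 1
    rw [Th_single, one_smul, one_mul]
  | one =>
    intro τ
    rw [W.one_v, W.one_q, map_zero, sub_self]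
  | mul y z _ _ hy hz =>
    intro τ
    rw [W.mul_v, W.mul_q, map_add, hy, hmv, hz, mul_one]
    abel
  | inv y _ hy =>
    intro τ
    rw [W.inv_v, W.inv_q, map_neg, hmv, hy, inv_mul_cancel, mul_one]
    abel

/-- the flow of a power -/
theorem pow_v (z : W Q T) (n : ℕ) :
    (z ^ n).v = ∑ i ∈ Finset.range n, mv (z.q ^ i) z.v := by
  induction n with
  | zero => rfl
  | succ n ih =>
    have h : (z ^ n).q = z.q ^ n := by
      have h1 : (pr (z ^ n) : Q) = z.q ^ n := by rw [map_pow]; rfl
      exact h1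
    rw [pow_succ, W.mul_v, ih, Finset.sum_range_succ, h]

theorem pow_q (z : W Q T) (n : ℕ) : (z ^ n).q = z.q ^ n := by
  have h : (pr (z ^ n) : Q) = z.q ^ n := by rw [map_pow]; rfl
  exact h

/-- a function which counts the translations by `q` -/
theorem exists_count (q : Q) :
    ∃ τ : Q → ZMod (orderOf q), ∀ y, τ (q * y) = τ y + 1 := by
  classical
  let H := Subgroup.zpowers q
  let rep : Q → Q := fun y => (Quotient.mk (QuotientGroup.rightRel H) y).out
  have hrep : ∀ y, y * (rep y)⁻¹ ∈ H := by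
    intro y
    have h1 : (Quotient.mk (QuotientGroup.rightRel H) (rep y)) =
        Quotient.mk (QuotientGroup.rightRel H) y := Quotient.out_eq _
    have h2 := Quotient.exact h1
    exact QuotientGroup.rightRel_apply.1 h2
  have hrepq : ∀ y, rep (q * y) = rep y := by
    intro y
    have h1 : (Quotient.mk (QuotientGroup.rightRel H) (q * y)) =
        Quotient.mk (QuotientGroup.rightRel H) y := by
      apply Quotient.sound
      apply QuotientGroup.rightRel_apply.2
      rw [mul_inv_rev, mul_inv_cancel_left]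
      exact H.inv_mem (Subgroup.mem_zpowers q)
    show (Quotient.mk (QuotientGroup.rightRel H) (q * y)).out = _
    rw [h1]
  have hk : ∀ y, ∃ k : ℤ, q ^ k = y * (rep y)⁻¹ := fun y => Subgroup.mem_zpowers_iff.1 (hrep y)
  choose k hk using hk
  refine ⟨fun y => ((k y : ℤ) : ZMod (orderOf q)), fun y => ?_⟩
  have h1 : q ^ k (q * y) = q ^ (k y + 1) := by
    rw [hk, hrepq, add_comm, zpow_add, zpow_one, hk, mul_assoc]
  have h2 : (k (q * y)) ≡ k y + 1 [ZMOD (orderOf q)] := zpow_eq_zpow_iff_modEq.1 h1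
  have h3 := (ZMod.intCast_eq_intCast_iff _ _ _).2 h2
  push_cast at h3
  exact h3

/-- a nontrivial element over an element of finite order has a nontrivial power in the kernel -/
theorem pow_ne (x : T → Q) (z : W Q T) (hz : z ∈ PG x) (hq : 0 < orderOf z.q)
    (h : (z ^ orderOf z.q).v = 0) : z = 1 := by
  obtain ⟨m, hm⟩ : ∃ m, m = orderOf z.q := ⟨_, rfl⟩
  obtain ⟨τ, hτ⟩ : ∃ τ : Q → ZMod m, ∀ y, τ (z.q * y) = τ y + 1 := by
    rw [hm]
    exact exists_count z.q
  rw [← hm] at hq h
  have : NeZero m := ⟨hq.ne'⟩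
  have hτp : ∀ (i : ℕ) y, τ (z.q ^ i * y) = τ y + i := by
    intro i
    induction i with
    | zero => intro y; simp
    | succ i ih =>
      intro y
      rw [pow_succ', mul_assoc, hτ, ih]
      push_cast
      ring
  -- the projection to the representatives of the orbits
  let p : Q × T → Q × T := fun e => (z.q ^ (-(τ e.1)).val * e.1, e.2)
  have hp : ∀ e, p (tl z.q e) = p e := by
    rintro ⟨y, s⟩
    show (z.q ^ (-(τ (z.q * y))).val * (z.q * y), s) = (z.q ^ (-(τ y)).val * y, s)
    rw [Prod.mk.injEq]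
    refine ⟨?_, rfl⟩
    rw [← mul_assoc, ← pow_succ]
    congr 1
    rw [← pow_mod_orderOf z.q ((-(τ (z.q * y))).val + 1), ← pow_mod_orderOf z.q ((-(τ y)).val)]
    congr 1
    rw [← hm]
    have h1 : ((((-(τ (z.q * y))).val + 1 : ℕ)) : ZMod m) = (((-(τ y)).val : ℕ) : ZMod m) := by
      push_cast
      rw [ZMod.natCast_zmod_val, ZMod.natCast_zmod_val, hτ]
      ring
    exact (ZMod.natCast_eq_natCast_iff' _ _ _).1 h1
  let P : (Q × T →₀ ℤ) →+ (Q × T →₀ ℤ) := Finsupp.mapDomain.addMonoidHom p
  have hP1 : ∀ v, P (mv z.q v) = P v := by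
    intro v
    show Finsupp.mapDomain p (Finsupp.mapDomain (tl z.q) v) = Finsupp.mapDomain p v
    rw [← Finsupp.mapDomain_comp]
    congr 1
    funext e
    exact hp e
  have hP2 : ∀ (i : ℕ) v, P (mv (z.q ^ i) v) = P v := by
    intro i
    induction i with
    | zero => intro v; rw [pow_zero, mv_one]
    | succ i ih => intro v; rw [pow_succ', mv_mul, hP1, ih]
  have hP3 : P z.v = 0 := by
    have h1 := congrArg P h
    rw [pow_v, map_sum, map_zero] at h1
    simp only [hP2, Finset.sum_const, Finset.card_range, smul_eq_zero] at h1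
    rcases h1 with h1 | h1
    · omega
    · exact h1
  -- the differences of `τ` are constant on the orbits
  have hT : Th x τ z.v = Th x τ (P z.v) := by
    have h1 : (Th x τ).comp P = Th x τ := by
      apply Finsupp.addHom_ext
      rintro ⟨y, s⟩ n
      rw [AddMonoidHom.comp_apply]
      have h2 : P (Finsupp.single (y, s) n) = Finsupp.single (p (y, s)) n :=
        Finsupp.mapDomain_single
      rw [h2, Th_single]
      show n • (τ (z.q ^ (-(τ y)).val * y * x s) - τ (z.q ^ (-(τ y)).val * y)) = _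
      rw [Th_single, mul_assoc, hτp, hτp]
      congr 1
      ring
    exact (DFunLike.congr_fun h1 z.v).symm
  rw [hP3, map_zero, Th_eq x z hz τ] at hT
  have h2 : τ z.q = τ 1 + 1 := by
    have := hτ 1
    rwa [mul_one] at this
  rw [h2, add_sub_cancel_left] at hT
  -- so `m = 1`
  have hm1 : m = 1 := by
    by_contra hne
    have : Fact (1 < m) := ⟨by omega⟩
    exact one_ne_zero hT
  have hq1 : z.q = 1 := orderOf_eq_one_iff.1 (hm ▸ hm1)
  apply W.ext
  · rw [hm1, pow_one] at h
    exact h
  · exact hq1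

/-- The group of the paths is torsion-free if `Q` is a torsion group. -/
theorem torsion_free (x : T → Q) (hQ : ∀ q : Q, ∃ k, 0 < k ∧ q ^ k = 1) (z : W Q T)
    (hz : z ∈ PG x) (n : ℕ) (hn : 0 < n) (h : z ^ n = 1) : z = 1 := by
  obtain ⟨k, hk, hk1⟩ := hQ z.q
  have hq : 0 < orderOf z.q := orderOf_pos_iff.2 (isOfFinOrder_iff_pow_eq_one.2 ⟨k, hk, hk1⟩)
  apply pow_ne x z hz hq
  set y := z ^ orderOf z.q with hy
  have hyq : y.q = 1 := by rw [hy, pow_q, pow_orderOf_eq_one]
  have h1 : y ^ n = 1 := by rw [hy, ← pow_mul, mul_comm, pow_mul, h, one_pow]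
  have h2 := congrArg W.v h1
  rw [pow_v, hyq, W.one_v] at h2
  simp only [one_pow, mv_one, Finset.sum_const, Finset.card_range, smul_eq_zero] at h2
  rcases h2 with h2 | h2
  · omega
  · exact h2

/-- nonzero flows have finite stabilisers -/
theorem stab_finite (v : Q × T →₀ ℤ) (hv : v ≠ 0) : {q : Q | mv q v = v}.Finite := by
  obtain ⟨⟨y, s⟩, hy⟩ := Finsupp.support_nonempty_iff.2 hv
  have h1 : ∀ q ∈ {q : Q | mv q v = v}, (q * y, s) ∈ v.support := by
    intro q hq
    have h2 : mv q v (tl q (y, s)) = v (y, s) := by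
      apply Finsupp.mapDomain_apply
      rintro ⟨a, b⟩ ⟨a', b'⟩ hab
      have e1 : q * a = q * a' := congrArg Prod.fst hab
      have e2 : b = b' := congrArg Prod.snd hab
      rw [mul_left_cancel e1, e2]
    have hq' : mv q v = v := hq
    rw [hq'] at h2
    rw [Finsupp.mem_support_iff] at hy ⊢
    show v (q * y, s) ≠ 0
    rw [show (q * y, s) = tl q (y, s) from rfl, h2]
    exact hy
  refine Set.Finite.subset (Set.Finite.preimage (f := fun q : Q => ((q * y, s) : Q × T)) ?_
    (v.support.finite_toSet)) h1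
  intro a _ b _ hab
  exact mul_right_cancel (congrArg Prod.fst hab)

/-- The abelian subgroups have finite images. -/
theorem abelian_image (x : T → Q) (hQ : ∀ q : Q, ∃ k, 0 < k ∧ q ^ k = 1)
    (H : Subgroup (W Q T)) (hH : H ≤ PG x) (hc : ∀ a ∈ H, ∀ b ∈ H, a * b = b * a) :
    (pr '' (H : Set (W Q T))).Finite := by
  by_cases h : ∃ a ∈ H, a.q = 1 ∧ a ≠ 1
  · obtain ⟨a, ha, ha1, hne⟩ := h
    have hv : a.v ≠ 0 := fun h0 => hne (W.ext h0 ha1)
    refine (stab_finite a.v hv).subset ?_
    rintro _ ⟨b, hb, rfl⟩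
    have h1 := congrArg W.v (hc a ha b hb)
    rw [W.mul_v, W.mul_v, ha1, mv_one, add_comm] at h1
    exact (add_left_cancel h1).symm
  · push Not at h
    have h1 : ∀ a ∈ H, a = 1 := by
      intro a ha
      obtain ⟨k, hk, hk1⟩ := hQ a.q
      have h2 : a ^ k = 1 := h (a ^ k) (H.pow_mem ha k) (by rw [pow_q, hk1])
      exact torsion_free x hQ a (hH ha) k hk h2
    refine (Set.finite_singleton (1 : Q)).subset ?_
    rintro _ ⟨b, hb, rfl⟩
    rw [h1 b hb, map_one]
    rfl

end Pool.Agent.FGA
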