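import Pool.Agent.FGA.GrigMean
import Pool.Agent.FGA.Wreath
import Pool.Agent.FGA.Ideal

/-!
# A finitely generated torsion-free amenable group
-/

set_option autoImplicit false

namespace Pool.Agent.FGA

/-- the generators -/
def gs (s : Lt) : Gam := el [s]

/-- The group. -/
abbrev GG : Type := PG gs

/-- the projection -/
noncomputable def pi' : GG →* Gam := (pr : W Gam Lt →* Gam).comp (PG gs).subtype

theorem pi_surj : Function.Surjective pi' := by
  have h : ∀ w : List Lt, ∃ z : GG, pi' z = el w := by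
    intro w
    induction w with
    | nil => exact ⟨1, by rw [map_one, el_nil]⟩
    | cons s w ih =>
      obtain ⟨z, hz⟩ := ih
      let y : GG := ⟨st gs s, Subgroup.subset_closure ⟨s, rfl⟩⟩
      refine ⟨y * z, ?_⟩
      rw [map_mul, hz, el_cons]
      rfl
  intro g
  obtain ⟨w, rfl⟩ := el_surj g
  exact h w

theorem countable_Gam : Countable Gam :=
  Function.Surjective.countable (f := el) el_surj

theorem countable_GG : Countable GG := by
  have h1 := countable_Gam
  have hL : Countable Lt := Finite.to_countable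
  have h2 : Function.Injective (fun z : GG => ((z.1.v, z.1.q) : (Gam × Lt →₀ ℤ) × Gam)) := by
    intro y z h
    apply Subtype.ext
    apply W.ext
    · exact congrArg Prod.fst h
    · exact congrArg Prod.snd h
  exact h2.countable

theorem amenable_GG : Amenable GG := by
  have h1 := countable_GG
  have h2 : Countable pi'.ker := Subtype.countable
  apply amenable_ext pi' pi_surj _ amenable_Gam
  apply amenable_abelian
  rintro ⟨x, hx⟩ ⟨y, hy⟩
  have hx' : x.1.q = 1 := hx
  have hy' : y.1.q = 1 := hy
  apply Subtype.ext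
  apply Subtype.ext
  apply W.ext
  · show x.1.v + mv x.1.q y.1.v = y.1.v + mv y.1.q x.1.v
    rw [hx', hy', mv_one, mv_one, add_comm]
  · show x.1.q * y.1.q = y.1.q * x.1.q
    rw [hx', hy']

theorem fg_GG : Group.FG GG := by
  rw [Group.fg_iff_subgroup_fg]
  have hL : Finite Lt := inferInstance
  exact (Subgroup.fg_iff _).2 ⟨Set.range (st gs), rfl, Set.finite_range _⟩

theorem torsionfree_GG (x : GG) (hx : x ≠ 1) (n : ℕ) (hn : 0 < n) : x ^ n ≠ 1 := by
  intro h
  apply hx
  apply Subtype.ext
  exact torsion_free gs torsion x.1 x.2 n hn (congrArg Subtype.val h)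

theorem abelian_GG (H : Subgroup GG) (hH : ∀ a ∈ H, ∀ b ∈ H, a * b = b * a) :
    (pi' '' (H : Set GG)).Finite := by
  have h := abelian_image gs torsion (H.map (PG gs).subtype)
    (by rintro _ ⟨z, -, rfl⟩; exact z.2)
    (by
      rintro _ ⟨a, ha, rfl⟩ _ ⟨b, hb, rfl⟩
      exact congrArg Subtype.val (hH a ha b hb))
  refine h.subset ?_
  rintro _ ⟨z, hz, rfl⟩
  exact ⟨z.1, ⟨z, hz, rfl⟩, rfl⟩

/-- There are a finitely generated torsion-free amenable group `G` and a closed two-sided ideal `I`
of `ℓ¹(G)` of infinite codimension such that for every abelian subgroup `H` of `G` the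
codimension of `I ∩ ℓ¹(H)` in `ℓ¹(H)` is finite. -/
theorem fg_example : ∃ (G : Type) (_ : Group G), Amenable G ∧ Group.FG G ∧
    (∀ x : G, x ≠ 1 → ∀ n : ℕ, 0 < n → x ^ n ≠ 1) ∧
    ∃ I : Set (G → ℂ), IsClosedIdeal I ∧
      (∀ H : Subgroup G, (∀ a ∈ H, ∀ b ∈ H, a * b = b * a) →
        ∃ n, CodimLE n (ellOn H) I) ∧
      ∀ n, ¬ CodimLE n (ell G) I := by
  have := infinite_Gam
  exact ⟨GG, inferInstance, amenable_GG, fg_GG, torsionfree_GG, Ker pi', closedIdeal_Ker pi',
    fun H hH => codim_le pi' H (abelian_GG H hH), fun n => codim_infinite pi' pi_surj n⟩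

end Pool.Agent.FGA
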